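import Pool.Agent.Helper74.TS.Far

/-!
# Two far cells in one column: real lemmas

`vl w A B` (`Helper74/TS/Far.lean`) is the volume of a far cell with `A = 1 - al`, `B = 1 - be`;
for a cell `A + B = 1 + w - d`.
-/

set_option autoImplicit false

namespace Pool.Agent.Helper34.TS

open Pool.Agent.Helper84.TS Pool.Agent.Helper23.TS Pool.Agent.Helper36.TS Pool.Agent.Helper74.TS

/-- **(R1)** two far cells `F = (i; m)`, `G = (x; m)` of one column, both with `w ≤ w₀`: the cap of
`F` on the class `x` is `F y + d_F`, the cap of `G` on the class `i` is `G y + d_G` -/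
theorem two_cap34 {A : Fin 4 → Fin 4 → Option (Fin 4 → ℝ)} (h : OF A) {i m x y : Fin 4}
    {F G : Fin 4 → ℝ} (hF : A i m = some F) (hG : A x m = some G) (hn : [i, m, x, y].Nodup)
    {w : ℝ} (hwF : 2 + F m ≤ w) (hwG : 2 + G m ≤ w) :
    1 - (F y + (F i - 1)) ≤ w + (G x - 1) - 1 ∨ 1 - (G y + (G x - 1)) ≤ w + (F i - 1) - 1 := by
  have h1 := two_rst h hF hG hn
  have h2 : 2 - w ≤ min (2 - (2 + F m)) (2 - (2 + G m)) := le_min (by linarith) (by linarith)
  rcases le_total (F y) (G y) with h3 | h3
  · rw [max_eq_right h3] at h1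
    right
    linarith
  · rw [max_eq_left h3] at h1
    left
    linarith

/-- the core of (R3): `p, s` the outer and `q, r` the inner excesses -/
private theorem spread34 {w p q r s t : ℝ} (hw0 : 0 ≤ w) (hp : p ≤ w) (ht : 0 ≤ t) (hq : p = q + t)
    (hs : s = r - t) (hqr : r ≤ q) (hw : p + s ≤ w) :
    (max p 0) ^ 3 + (max s 0) ^ 3 ≤ (max q 0) ^ 3 + (max r 0) ^ 3 + 3 * (w * (t * (q - r + t))) := by
  have h0 : 0 ≤ t * (q - r + t) := mul_nonneg ht (by linarith)
  have hsr : s ≤ r := by linarith
  have hqp : q ≤ p := by linarith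
  rcases le_total p 0 with hp0 | hp0
  · rw [max_eq_right hp0, max_eq_right (by linarith : s ≤ 0), max_eq_right (by linarith : q ≤ 0),
      max_eq_right (by linarith : r ≤ 0)]
    have := mul_nonneg hw0 h0
    linarith
  · rw [max_eq_left hp0]
    rcases le_total q 0 with hq0 | hq0
    · rw [max_eq_right hq0, max_eq_right (by linarith : r ≤ 0), max_eq_right (by linarith : s ≤ 0)]
      have h1 : p ≤ t := by linarith
      have h2 : p ≤ q - r + t := by linarith
      have h3 : p * p ≤ t * (q - r + t) := mul_le_mul h1 h2 hp0 ht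
      have h4 : p * (p * p) ≤ w * (t * (q - r + t)) :=
        mul_le_mul hp h3 (mul_nonneg hp0 hp0) hw0
      nlinarith [mul_nonneg hw0 h0]
    · rw [max_eq_left hq0]
      rcases le_total r 0 with hr0 | hr0
      · rw [max_eq_right hr0, max_eq_right (by linarith : s ≤ 0)]
        have h2 : p ≤ q - r + t := by linarith
        have h3 : t * p ≤ t * (q - r + t) := mul_le_mul_of_nonneg_left h2 ht
        have h4 : p * (t * p) ≤ w * (t * (q - r + t)) :=
          mul_le_mul hp h3 (mul_nonneg ht hp0) hw0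
        subst hq
        nlinarith [mul_nonneg ht (mul_nonneg hq0 hp0), mul_nonneg ht (mul_nonneg hq0 hq0),
          mul_nonneg ht (mul_nonneg ht hq0)]
      · rw [max_eq_left hr0]
        rcases le_total s 0 with hs0 | hs0
        · rw [max_eq_right hs0]
          have h1 : 0 ≤ (w - (p + s)) * (t * (q - r + t)) := mul_nonneg (by linarith) h0
          have h2 : -s ≤ t := by linarith
          have h3 : -s ≤ w - (p + s) := by linarith
          have h4 : t * t ≤ t * (q - r + t) := mul_le_mul_of_nonneg_left (by linarith) ht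
          have h5 : (-s) * (-s) ≤ t * t := mul_le_mul h2 h2 (by linarith) ht
          have h6 : (-s) * ((-s) * (-s)) ≤ (w - (p + s)) * (t * (q - r + t)) :=
            mul_le_mul h3 (h5.trans h4) (mul_nonneg (by linarith) (by linarith)) (by linarith)
          have e : p ^ 3 + s ^ 3 = q ^ 3 + r ^ 3 + 3 * ((p + s) * (t * (q - r + t))) := by
            subst hq hs
            ring
          nlinarith
        · rw [max_eq_left hs0]
          have h1 : 0 ≤ (w - (p + s)) * (t * (q - r + t)) := mul_nonneg (by linarith) h0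
          have e : p ^ 3 + s ^ 3 = q ^ 3 + r ^ 3 + 3 * ((p + s) * (t * (q - r + t))) := by
            subst hq hs
            ring
          nlinarith

/-- **(R3)** for the volume function: if `A + B` is fixed, the volume decreases with the distance of
`A` and `B` -/
theorem vl_spread34 {w A B a b : ℝ} (hw : 0 ≤ w) (hA : 0 ≤ A) (hs : w ≤ A + B) (h : A ≤ a)
    (hab : a ≤ b) (e : A + B = a + b) : vl w A B ≤ vl w a b := by
  have h1 := spread34 (w := w) (p := w - A) (q := w - a) (r := w - b) (s := w - B) (t := a - A)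
    hw (by linarith) (by linarith) (by ring) (by linarith) (by linarith) (by linarith)
  have e2 : a * b = A * B + (a - A) * (w - a - (w - b) + (a - A)) := by
    have : B = a + b - A := by linarith
    rw [this]
    ring
  have e3 : w * a * b = w * A * B + w * ((a - A) * (w - a - (w - b) + (a - A))) := by
    rw [mul_assoc, e2]
    ring
  unfold vl
  linarith

/-- **(R2)** the volume function is at most its value at the middle -/
theorem vl_mid34 {w A B : ℝ} (hw : 0 ≤ w) (hA : 0 ≤ A) (hB : 0 ≤ B) (hs : w ≤ A + B) :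
    vl w A B ≤ w * (A + B) ^ 2 / 4 - w ^ 3 / 3 + 2 / 3 * (max (w - (A + B) / 2) 0) ^ 3 := by
  have key : vl w A B ≤ vl w ((A + B) / 2) ((A + B) / 2) := by
    rcases le_total A B with h | h
    · exact vl_spread34 hw hA hs (by linarith) le_rfl (by ring)
    · rw [vl_comm w A B]
      exact vl_spread34 hw hB (by linarith) (by linarith) le_rfl (by ring)
  refine key.trans (le_of_eq ?_)
  unfold vl
  ring

section

variable {f w d al be ui ux uy di dx dy sx' sy : ℝ}

/-- **(R2)** for a far cell -/
theorem farC_mid34 (F : FarC f w d al be ui ux uy di dx dy sx' sy) :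
    f ≤ w * (1 + w - d) ^ 2 / 4 - w ^ 3 / 3 + 2 / 3 * (max ((w - 1 + d) / 2) 0) ^ 3 := by
  obtain ⟨h1, h2, h3, h4, -, h6⟩ := farC_vl F
  rw [h1]
  have h := vl_mid34 F.w0.le h2.le h3.le h4.le
  rw [show (1 - al) + (1 - be) = 1 + w - d by linarith,
    show w - (1 + w - d) / 2 = (w - 1 + d) / 2 by ring] at h
  exact h

/-- **(R3)** for a far cell: `1 - al ≤ a ≤ (1 + w - d) / 2` -/
theorem farC_left34 (F : FarC f w d al be ui ux uy di dx dy sx' sy) {a : ℝ} (ha : 1 - al ≤ a)
    (ha2 : a ≤ (1 + w - d) / 2) :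
    f ≤ w * a * (1 + w - d - a) - w ^ 3 / 3
      + ((max (w - a) 0) ^ 3 + (max (a + d - 1) 0) ^ 3) / 3 := by
  obtain ⟨h1, h2, h3, h4, -, h6⟩ := farC_vl F
  rw [h1]
  have h := vl_spread34 (a := a) (b := 1 + w - d - a) F.w0.le h2.le h4.le ha (by linarith)
    (by linarith)
  refine h.trans (le_of_eq ?_)
  unfold vl
  rw [show w - (1 + w - d - a) = a + d - 1 by ring]

/-- **(R3)** for a far cell, on the other side: `1 - be ≤ a ≤ (1 + w - d) / 2` -/
theorem farC_right34 (F : FarC f w d al be ui ux uy di dx dy sx' sy) {a : ℝ} (ha : 1 - be ≤ a)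
    (ha2 : a ≤ (1 + w - d) / 2) :
    f ≤ w * a * (1 + w - d - a) - w ^ 3 / 3
      + ((max (w - a) 0) ^ 3 + (max (a + d - 1) 0) ^ 3) / 3 := by
  obtain ⟨h1, h2, h3, h4, -, h6⟩ := farC_vl F
  rw [h1, vl_comm]
  have h := vl_spread34 (A := 1 - be) (B := 1 - al) (a := a) (b := 1 + w - d - a) F.w0.le h3.le
    (by linarith) ha (by linarith) (by linarith)
  refine h.trans (le_of_eq ?_)
  unfold vl
  rw [show w - (1 + w - d - a) = a + d - 1 by ring]

end

end Pool.Agent.Helper34.TS
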